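import Mathlib

set_option autoImplicit false

/-! # Branching programs with arbitrary tests -/

namespace Pool.Agent.K4H88.TF

/-- Branching programs with `n` inner nodes, whose tests are elements of `Φ`. The nodes are numbered:
`0` and `1` are the two sinks, `2, 3, …, n + 1` are the inner nodes. The two successors of an inner node
are nodes with smaller numbers. -/
inductive BP (Φ : Type) : ℕ → Type
  | sinks : BP Φ 0
  | node : {n : ℕ} → BP Φ n → Φ → (no yes : Fin (n + 2)) → BP Φ (n + 1)

namespace BP

variable {Φ X : Type}

/-- The value of the sink which is reached from a node (`0` rejects, `1` accepts), if a test `φ`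
has the outcome `acc φ x`. An inner node leads to its successor `yes` if the outcome is `true`. -/
def val (acc : Φ → X → Bool) : {n : ℕ} → BP Φ n → X → Fin (n + 2) → Bool
  | _, sinks, _, v => decide (v = 1)
  | _, node B φ no yes, x, v =>
      Fin.lastCases (motive := fun _ => Bool) (if acc φ x then B.val acc x yes else B.val acc x no)
        (fun u => B.val acc x u) v

/-- The size: the number of the inner nodes plus the sizes of all tests. -/
def size (sz : Φ → ℕ) : {n : ℕ} → BP Φ n → ℕ
  | _, sinks => 0
  | _, node B φ _ _ => B.size sz + (sz φ + 1)

end BP

/-- A branching program of size at most `s`, with a start node. -/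
structure Prog (Φ : Type) (sz : Φ → ℕ) (s : ℕ) where
  /-- number of inner nodes -/
  nodes : ℕ
  bp : BP Φ nodes
  size_le : bp.size sz ≤ s
  start : Fin (nodes + 2)

/-- The result of the computation of the program, if a test `φ` has the outcome `acc φ x`. -/
def Prog.eval {Φ X : Type} {sz : Φ → ℕ} {s : ℕ} (B : Prog Φ sz s) (acc : Φ → X → Bool) (x : X) :
    Bool :=
  B.bp.val acc x B.start

end Pool.Agent.K4H88.TF
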