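import Pool.Agent.K4H88.TF.Cov

set_option autoImplicit false

/-! # Few subfunctions of tensor formulas -/

namespace Pool.Agent.K4H88.TF

open Finset

variable {ι : Type} {D : ι → Type} {w q d : ℕ} [DecidableEq ι]

/-- does it see item `i`? -/
def Look.reads (i : ι) : Look ι D w q → ℕ
  | nothing => 0
  | one j => if j = i then 1 else 0
  | words item _ => if ∃ k, item k = i then 1 else 0

namespace Look

theorem reads_le_one (i : ι) (l : Look ι D w q) : l.reads i ≤ 1 := by
  cases l <;> simp only [reads] <;> (try split_ifs) <;> omega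

theorem reads_le_cost (i : ι) (l : Look ι D w q) : l.reads i ≤ l.cost := by
  cases l <;> simp only [reads, cost] <;> (try split_ifs) <;> omega

theorem see_update (i : ι) (l : Look ι D w q) (h : l.reads i = 0) (z : ∀ i, D i) (e : D i) :
    l.see (Function.update z i e) = l.see z := by
  cases l with
  | nothing => rfl
  | one j =>
    have hj : j ≠ i := by
      intro hj
      simp [reads, hj] at h
    simp only [see]
    rw [Function.update_of_ne hj]
  | words item view =>
    have hk : ∀ k, item k ≠ i := by
      intro k hk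
      have : ∃ k, item k = i := ⟨k, hk⟩
      simp [reads, this] at h
    simp only [see]
    funext k
    rw [Function.update_of_ne (hk k)]

theorem sum_reads_le (I : Finset ι) (hw : 1 ≤ w) (l : Look ι D w q) :
    ∑ i ∈ I, l.reads i ≤ w * l.cost := by
  classical
  cases l with
  | nothing => simp [reads]
  | one j =>
    simp only [reads, cost]
    rw [Finset.sum_ite_eq]
    split_ifs <;> omega
  | words item view =>
    simp only [reads, cost]
    rw [← card_filter, mul_one]
    have h : I.filter (fun i => ∃ k, item k = i) ⊆ (univ : Finset (Fin w)).image item := by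
      intro b hb
      rw [mem_filter] at hb
      obtain ⟨k, hk⟩ := hb.2
      exact mem_image.2 ⟨k, mem_univ _, hk⟩
    exact (card_le_card h).trans (card_image_le.trans (by simp))

/-- what may be seen of item `i` -/
theorem family {Y : Type} (i : ι) (y : Y → D i) (hq : 1 ≤ q) (l : Look ι D w q)
    (h : l.reads i = 1) :
    ∃ (κ : Type) (_ : Fintype κ) (ρ : κ → Y → l.Out), Fintype.card κ ≤ q ^ (w - 1) ∧
      ∀ z : (∀ i, D i), ∃ k, ∀ v, l.see (Function.update z i (y v)) = ρ k v := by
  classical
  cases l with
  | nothing => simp [reads] at h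
  | one j =>
    have hj : j = i := by
      by_contra hj
      simp [reads, hj] at h
    subst hj
    refine ⟨Unit, inferInstance, fun _ v => y v, ?_, fun z => ⟨(), fun v => ?_⟩⟩
    · simp only [Fintype.card_unit]
      exact Nat.one_le_pow _ _ hq
    · simp only [see]
      rw [Function.update_self]
  | words item view =>
    have hk : ∃ k, item k = i := by
      by_contra hk
      simp [reads, hk] at h
    obtain ⟨k0, hk0⟩ := hk
    refine ⟨{k : Fin w // k ≠ k0} → Fin q, inferInstance, fun c => fun v =>
      (fun k => if hk : item k = i then view k (hk ▸ y v) else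
        if h : k ≠ k0 then c ⟨k, h⟩ else view k (by
          have h1 : k = k0 := not_not.1 h
          rw [h1] at hk
          exact absurd hk0 hk)), ?_, fun z => ?_⟩
    · rw [Fintype.card_fun, Fintype.card_fin]
      apply le_of_eq
      congr 1
      rw [Fintype.card_subtype_compl]
      simp
    · refine ⟨fun k => view k.1 (z (item k.1)), fun v => ?_⟩
      simp only [see]
      funext k
      by_cases hk : item k = i
      · rw [dif_pos hk]
        congr 1
        subst hk
        rw [Function.update_self]
      · have hk1 : k ≠ k0 := by rintro rfl; exact hk hk0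
        rw [dif_neg hk, dif_pos hk1, Function.update_of_ne hk]

end Look

namespace Fml

/-- The number of leaves and gates which see item `i`. -/
def reads (i : ι) : Fml ι D w q d → ℕ
  | leaf l _ => l.reads i
  | gate l _ F G => l.reads i + (F.reads i + G.reads i)
  | sym _ _ _ F => ∑ j, (F j).reads i

theorem reads_le_size (i : ι) (F : Fml ι D w q d) : F.reads i ≤ F.size := by
  induction F with
  | leaf l f => exact l.reads_le_cost i
  | gate l c F G ihF ihG =>
    have := l.reads_le_cost i
    simp only [reads, size]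
    omega
  | sym k h ℓ F ih =>
    simp only [reads, size]
    exact (sum_le_sum fun j _ => ih j).trans (Nat.le_add_left _ _)

theorem eval_update (i : ι) (F : Fml ι D w q d) (h : F.reads i = 0) (z : ∀ i, D i) (e : D i) :
    F.eval (Function.update z i e) = F.eval z := by
  induction F with
  | leaf l f =>
    simp only [reads] at h
    simp only [eval]
    rw [l.see_update i h]
  | gate l c F G ihF ihG =>
    simp only [reads] at h
    simp only [eval]
    rw [l.see_update i (by omega), ihF (by omega), ihG (by omega)]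
  | sym k H ℓ F ih =>
    simp only [reads] at h
    simp only [eval]
    have h1 : ∀ j, (F j).eval (Function.update z i e) = (F j).eval z := fun j =>
      ih j (by
        have := (sum_eq_zero_iff (s := univ) (f := fun j => (F j).reads i)).1 h
        exact this j (mem_univ j))
    simp only [h1]

theorem sum_reads_le (I : Finset ι) (hw : 1 ≤ w) (F : Fml ι D w q d) :
    ∑ i ∈ I, F.reads i ≤ w * F.size := by
  induction F with
  | leaf l f => exact l.sum_reads_le I hw
  | gate l c F G ihF ihG =>
    have := l.sum_reads_le I hw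
    simp only [reads, size, sum_add_distrib]
    rw [mul_add, mul_add]
    omega
  | sym k h ℓ F ih =>
    simp only [reads, size]
    rw [sum_comm, mul_add]
    calc ∑ j, ∑ i ∈ I, (F j).reads i ≤ ∑ j, w * (F j).size := sum_le_sum fun j _ => ih j
      _ = w * ∑ j, (F j).size := by rw [mul_sum]
      _ ≤ _ := by omega

/-- The functions of item `i`. -/
def Sub {Y : Type} (i : ι) (y : Y → D i) (F : Fml ι D w q d) : Set (Y → Fin d → ℝ) :=
  {g | ∃ (z : ∀ i, D i) (u : (Fin d → ℝ) → (Fin d → ℝ)), Un u ∧
    g = fun v => u (F.eval (Function.update z i (y v)))}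

theorem mem_sub_id {Y : Type} (i : ι) (y : Y → D i) (F : Fml ι D w q d) (z : ∀ i, D i) :
    (fun v => F.eval (Function.update z i (y v))) ∈ F.Sub i y := ⟨z, _, Un.id, rfl⟩

/-- the cost of a unary function -/
def uc (M d : ℕ) : ℕ := M ^ (d * (d + 1)) + M ^ (3 * d + 1)

theorem base_bound {M B q w d : ℕ} (hM : 1 ≤ M) (hq : 1 ≤ q)
    (hB : B = 2 * q ^ (w - 1) * M ^ (d ^ 3 + 3 * d ^ 2 + 6 * d + 2)) :
    M ^ (d * ((d + 1) * (d + 1))) * uc M d ≤ B ∧ q ^ (w - 1) * M ^ (2 * d) * uc M d ≤ B ∧
      M * uc M d ≤ B ∧ 1 ≤ B := by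
  have h0 : uc M d ≤ 2 * M ^ (d ^ 2 + 3 * d + 1) := by
    have e1 : M ^ (d * (d + 1)) ≤ M ^ (d ^ 2 + 3 * d + 1) :=
      Nat.pow_le_pow_right hM (by nlinarith)
    have e2 : M ^ (3 * d + 1) ≤ M ^ (d ^ 2 + 3 * d + 1) :=
      Nat.pow_le_pow_right hM (by nlinarith)
    unfold uc
    omega
  have h3 : 1 ≤ q ^ (w - 1) := Nat.one_le_pow _ _ hq
  have key : ∀ a, a ≤ d ^ 3 + 2 * d ^ 2 + 3 * d + 1 → M ^ a * uc M d ≤
      2 * M ^ (d ^ 3 + 3 * d ^ 2 + 6 * d + 2) := by
    intro a ha
    calc M ^ a * uc M d ≤ M ^ a * (2 * M ^ (d ^ 2 + 3 * d + 1)) := Nat.mul_le_mul_left _ h0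
      _ = 2 * M ^ (a + (d ^ 2 + 3 * d + 1)) := by rw [pow_add]; ring
      _ ≤ _ := Nat.mul_le_mul_left _ (Nat.pow_le_pow_right hM (by omega))
  have key2 : 2 * M ^ (d ^ 3 + 3 * d ^ 2 + 6 * d + 2) ≤ B := by
    rw [hB]
    calc 2 * M ^ (d ^ 3 + 3 * d ^ 2 + 6 * d + 2) =
        2 * 1 * M ^ (d ^ 3 + 3 * d ^ 2 + 6 * d + 2) := by ring
      _ ≤ _ := Nat.mul_le_mul_right _ (Nat.mul_le_mul_left _ h3)
  refine ⟨(key _ ?_).trans key2, ?_, ?_, ?_⟩
  · nlinarith [sq_nonneg d]
  · rw [hB]
    calc q ^ (w - 1) * M ^ (2 * d) * uc M d = q ^ (w - 1) * (M ^ (2 * d) * uc M d) := by ring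
      _ ≤ q ^ (w - 1) * (2 * M ^ (d ^ 3 + 3 * d ^ 2 + 6 * d + 2)) :=
          Nat.mul_le_mul_left _ (key _ (by nlinarith [sq_nonneg d, Nat.zero_le (d ^ 3)]))
      _ = _ := by ring
  · refine le_trans ?_ key2
    calc M * uc M d = M ^ 1 * uc M d := by rw [pow_one]
      _ ≤ _ := key 1 (by omega)
  · refine le_trans ?_ key2
    have := Nat.one_le_pow (d ^ 3 + 3 * d ^ 2 + 6 * d + 2) M hM
    omega

open Classical in
theorem cov {Y : Type} [Fintype Y] (i : ι) (y : Y → D i) (s M B : ℕ) (hq : 1 ≤ q)
    (hM : 4 * Fintype.card Y * (5 * s + 1) + 2 + s ≤ M)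
    (hB : B = 2 * q ^ (w - 1) * M ^ (d ^ 3 + 3 * d ^ 2 + 6 * d + 2)) (F : Fml ι D w q d)
    (hs : F.size ≤ s) (h : 1 ≤ F.reads i) :
    Cov M (5 * F.reads i - 2) (B ^ (2 * F.reads i - 1)) (F.Sub i y) := by
  obtain ⟨hB1, hB2, hB3, hB4⟩ := base_bound (M := M) (B := B) (q := q) (w := w) (d := d)
    (by omega) hq hB
  have hMd : ∀ g, g ≤ 5 * s → 4 * Fintype.card Y * (g + 1) + 2 ≤ M := by
    intro g hg
    have : 4 * Fintype.card Y * (g + 1) ≤ 4 * Fintype.card Y * (5 * s + 1) :=
      Nat.mul_le_mul_left _ (by omega)
    omega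
  induction F with
  | leaf l f =>
    simp only [reads] at h ⊢
    have hl : l.reads i = 1 := by
      have := l.reads_le_one i
      omega
    obtain ⟨κ, _, ρ, hκ, hρ⟩ := l.family i y hq hl
    have h1 := (cov_of_finite (M := M) (fun k v => f (ρ k v))).un (hMd 0 (by omega))
    rw [hl]
    refine h1.mono (by omega) ?_ ?_
    · rw [show 2 * 1 - 1 = 1 by norm_num, pow_one]
      refine le_trans ?_ hB2
      have e : 1 ≤ M ^ (2 * d) := Nat.one_le_pow _ _ (by omega)
      calc Fintype.card κ * uc M d ≤ q ^ (w - 1) * uc M d := Nat.mul_le_mul_right _ hκ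
        _ = q ^ (w - 1) * 1 * uc M d := by ring
        _ ≤ _ := Nat.mul_le_mul_right _ (Nat.mul_le_mul_left _ e)
    · rintro g ⟨z, u, hu, rfl⟩
      obtain ⟨k, hk⟩ := hρ z
      refine ⟨_, ⟨k, rfl⟩, u, hu, ?_⟩
      funext v
      simp only [eval]
      rw [hk v]
  | gate l c F G ihF ihG =>
    simp only [size] at hs
    simp only [reads] at h ⊢
    have hlc := l.reads_le_cost i
    have r1 := F.reads_le_size i
    have r2 := G.reads_le_size i
    by_cases hl : l.reads i = 0
    · by_cases hF : F.reads i = 0
      · have h1 := ihG (by omega) (by omega)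
        rw [hF, hl, zero_add, zero_add]
        refine h1.mono le_rfl le_rfl ?_
        rintro g ⟨z, u, hu, rfl⟩
        refine ⟨z, _, hu.comp (fun k b => ∑ a, c (l.see z) k a b * ext (F.eval z) a), ?_⟩
        funext v
        simp only [eval]
        rw [F.eval_update i hF, l.see_update i hl]
        congr 1
        funext k
        unfold aff
        rw [sum_comm]
        refine sum_congr rfl fun b _ => ?_
        rw [sum_mul]
        exact sum_congr rfl fun a _ => by ring
      by_cases hG : G.reads i = 0
      · have h1 := ihF (by omega) (by omega)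
        rw [hG, hl, zero_add, add_zero]
        refine h1.mono le_rfl le_rfl ?_
        rintro g ⟨z, u, hu, rfl⟩
        refine ⟨z, _, hu.comp (fun k a => ∑ b, c (l.see z) k a b * ext (G.eval z) b), ?_⟩
        funext v
        simp only [eval]
        rw [G.eval_update i hG, l.see_update i hl]
        congr 1
        funext k
        unfold aff
        refine sum_congr rfl fun a _ => ?_
        rw [sum_mul]
        exact sum_congr rfl fun b _ => by ring
      have h1 := (((ihF (by omega) (by omega)).gate' (ihG (by omega) (by omega)))).un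
        (hMd _ (by omega))
      refine h1.mono (by omega) ?_ ?_
      · rw [← pow_add]
        calc M ^ (d * ((d + 1) * (d + 1))) * B ^ (2 * F.reads i - 1 + (2 * G.reads i - 1)) *
              (M ^ (d * (d + 1)) + M ^ (3 * d + 1))
            = B ^ (2 * F.reads i - 1 + (2 * G.reads i - 1)) *
              (M ^ (d * ((d + 1) * (d + 1))) * uc M d) := by unfold uc; ring
          _ ≤ B ^ (2 * F.reads i - 1 + (2 * G.reads i - 1)) * B := Nat.mul_le_mul_left _ hB1
          _ = B ^ (2 * F.reads i - 1 + (2 * G.reads i - 1) + 1) := by rw [← pow_succ]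
          _ ≤ _ := Nat.pow_le_pow_right hB4 (by omega)
      · rintro g ⟨z, u, hu, rfl⟩
        refine ⟨_, ⟨c (l.see z), _, F.mem_sub_id i y z, _, G.mem_sub_id i y z, rfl⟩, u, hu, ?_⟩
        funext v
        simp only [eval]
        rw [l.see_update i hl]
    · have hl1 : l.reads i = 1 := by
        have := l.reads_le_one i
        omega
      obtain ⟨κ, _, ρ, hκ, hρ⟩ := l.family i y hq hl1
      have hMd' : 1 ≤ M ^ d := Nat.one_le_pow _ _ (by omega)
      have key : ∀ H : Fml ι D w q d, (1 ≤ H.reads i →
          Cov M (5 * H.reads i - 2) (B ^ (2 * H.reads i - 1)) (H.Sub i y)) →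
          ∃ 𝒢, Cov M (5 * H.reads i + 1) (M ^ d * B ^ (2 * H.reads i)) 𝒢 ∧
            ∀ z, (fun v => H.eval (Function.update z i (y v))) ∈ 𝒢 := by
        intro H hH
        by_cases h0 : H.reads i = 0
        · refine ⟨_, (cov_const (Y := Y) (M := M) (d := d)).mono (by omega) ?_ subset_rfl,
            fun z => ⟨H.eval z, ?_⟩⟩
          · rw [h0]; simp
          · funext v
            rw [H.eval_update i h0]
        · refine ⟨_, (hH (by omega)).mono (by omega) ?_ subset_rfl, H.mem_sub_id i y⟩
          calc B ^ (2 * H.reads i - 1) ≤ 1 * B ^ (2 * H.reads i) := by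
                rw [one_mul]; exact Nat.pow_le_pow_right hB4 (by omega)
            _ ≤ _ := Nat.mul_le_mul_right _ hMd'
      obtain ⟨𝒢₁, a1, a2⟩ := key F (fun h' => ihF (by omega) h')
      obtain ⟨𝒢₂, b1, b2⟩ := key G (fun h' => ihG (by omega) h')
      have h1 := (Cov.gate (fun k v => c (ρ k v)) a1 b1).un (hMd _ (by omega))
      refine h1.mono (by omega) ?_ ?_
      · rw [hl1]
        calc Fintype.card κ * (M ^ d * B ^ (2 * F.reads i) * (M ^ d * B ^ (2 * G.reads i))) *
              (M ^ (d * (d + 1)) + M ^ (3 * d + 1))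
            ≤ q ^ (w - 1) * (M ^ d * B ^ (2 * F.reads i) * (M ^ d * B ^ (2 * G.reads i))) *
              (M ^ (d * (d + 1)) + M ^ (3 * d + 1)) :=
              Nat.mul_le_mul_right _ (Nat.mul_le_mul_right _ hκ)
          _ = B ^ (2 * F.reads i + 2 * G.reads i) * (q ^ (w - 1) * M ^ (2 * d) * uc M d) := by
              unfold uc
              rw [pow_add, two_mul d, pow_add M d d]
              ring
          _ ≤ B ^ (2 * F.reads i + 2 * G.reads i) * B := Nat.mul_le_mul_left _ hB2
          _ = B ^ (2 * F.reads i + 2 * G.reads i + 1) := by rw [← pow_succ]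
          _ ≤ _ := Nat.pow_le_pow_right hB4 (by omega)
      · rintro g ⟨z, u, hu, rfl⟩
        obtain ⟨k, hk⟩ := hρ z
        refine ⟨_, ⟨k, _, a2 z, _, b2 z, rfl⟩, u, hu, ?_⟩
        funext v
        simp only [eval]
        rw [hk v]
  | sym k H ℓ F ih =>
    simp only [size] at hs
    simp only [reads] at h ⊢
    have hsj : ∀ j, (F j).size ≤ ∑ j, (F j).size := fun j =>
      single_le_sum (f := fun j => (F j).size) (fun _ _ => Nat.zero_le _) (mem_univ j)
    have hrj : ∀ j, (F j).reads i ≤ ∑ j, (F j).reads i := fun j =>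
      single_le_sum (f := fun j => (F j).reads i) (fun _ _ => Nat.zero_le _) (mem_univ j)
    have hrs : ∑ j, (F j).reads i ≤ ∑ j, (F j).size := sum_le_sum fun j _ => (F j).reads_le_size i
    by_cases hA : ∃ j0, ∀ j, j ≠ j0 → (F j).reads i = 0
    · -- one live child
      obtain ⟨j0, hj0⟩ := hA
      have e : ∑ j, (F j).reads i = (F j0).reads i :=
        sum_eq_single j0 (fun j _ hj => hj0 j hj) (fun hj => absurd (mem_univ _) hj)
      rw [e] at h ⊢
      refine (ih j0 (by have := hsj j0; omega) h).mono le_rfl le_rfl ?_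
      rintro g ⟨z, u, hu, rfl⟩
      refine ⟨z, _, Un.bool (ℓ j0) (fun b => u (H ((univ.filter (fun j => j ≠ j0 ∧
        0 < aff (ℓ j) ((F j).eval z))).card + if b then 1 else 0))), ?_⟩
      funext v
      simp only [eval, decide_eq_true_eq]
      congr 2
      have e2 : univ.filter (fun j => 0 < aff (ℓ j) ((F j).eval (Function.update z i (y v)))) =
          univ.filter (fun j => j ≠ j0 ∧ 0 < aff (ℓ j) ((F j).eval z)) ∪
          (if 0 < aff (ℓ j0) ((F j0).eval (Function.update z i (y v))) then {j0} else ∅) := by
        ext j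
        rw [mem_filter, mem_union, mem_filter]
        by_cases hj : j = j0
        · subst hj
          split_ifs with h5 <;> simp [h5]
        · rw [(F j).eval_update i (hj0 j hj)]
          split_ifs <;> simp [hj]
      rw [e2, card_union_of_disjoint]
      · congr 1
        split_ifs <;> simp
      · split_ifs
        · rw [disjoint_singleton_right]
          simp
        · simp
    · push Not at hA
      -- the Boolean functions of the children
      have hS : ∀ j, ∃ S : Finset (Y → Bool), S.card ≤ B ^ (2 * (F j).reads i - 1) ∧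
          ∀ z, (fun v => decide ((F j).reads i ≠ 0 ∧
            0 < aff (ℓ j) ((F j).eval (Function.update z i (y v))))) ∈ S := by
        intro j
        by_cases hj : (F j).reads i = 0
        · refine ⟨{fun _ => false}, ?_, fun z => ?_⟩
          · rw [card_singleton]
            exact Nat.one_le_pow _ _ hB4
          · rw [mem_singleton]
            funext v
            simp [hj]
        · have := hsj j
          have := hrj j
          obtain ⟨S, hS1, hS2⟩ := (ih j (by omega) (by omega)).bool' (by
            have h9 := hMd (5 * (F j).reads i - 2) (by omega)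
            have h10 : 4 * Fintype.card Y * (5 * (F j).reads i - 2) ≤
              4 * Fintype.card Y * (5 * (F j).reads i - 2 + 1) := Nat.mul_le_mul_left _ (by omega)
            omega) (ℓ j)
          refine ⟨S, hS1, fun z => ?_⟩
          have h9 := hS2 _ ((F j).mem_sub_id i y z)
          have e : (fun v => decide ((F j).reads i ≠ 0 ∧
              0 < aff (ℓ j) ((F j).eval (Function.update z i (y v))))) =
              fun v => decide (0 < aff (ℓ j) ((F j).eval (Function.update z i (y v)))) := by
            funext v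
            rw [Bool.eq_iff_iff, decide_eq_true_iff, decide_eq_true_iff]
            simp [hj]
          rw [e]
          exact h9
      choose S hS1 hS2 using hS
      obtain ⟨f, hf⟩ : ∃ f : (Fin (k + 1) × ((j : Fin k) → {x : Y → Bool // x ∈ S j})) → Y →
          Fin d → ℝ,
          ∀ (c : Fin (k + 1) × ((j : Fin k) → {x : Y → Bool // x ∈ S j})) (v : Y),
            f c v = H (c.1.val + (univ.filter (fun j : Fin k => (c.2 j).1 v = true)).card) :=
        ⟨fun c v => H (c.1.val + (univ.filter (fun j : Fin k => (c.2 j).1 v = true)).card),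
          fun _ _ => rfl⟩
      have h1 := (cov_of_finite (M := M) f).un (hMd 0 (by omega))
      have hcard : 2 ≤ (univ.filter (fun j => (F j).reads i ≠ 0)).card := by
        obtain ⟨j1, hj1⟩ : ∃ j1, (F j1).reads i ≠ 0 := by
          by_contra hc
          push Not at hc
          simp [hc] at h
        obtain ⟨j2, hj2, hj3⟩ := hA j1
        have : ({j1, j2} : Finset (Fin k)) ⊆ univ.filter (fun j => (F j).reads i ≠ 0) := by
          intro j hj
          rw [mem_insert, mem_singleton] at hj
          rw [mem_filter]
          rcases hj with rfl | rfl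
          · exact ⟨mem_univ _, hj1⟩
          · exact ⟨mem_univ _, hj3⟩
        have h3 := card_le_card this
        rwa [card_pair hj2.symm] at h3
      have hsum : ∑ j, (2 * (F j).reads i - 1) + 2 ≤ 2 * ∑ j, (F j).reads i := by
        have e3 : ∀ j, 2 * (F j).reads i - 1 + (if (F j).reads i ≠ 0 then 1 else 0) =
            2 * (F j).reads i := by
          intro j
          split_ifs with h5 <;> omega
        have e4 : ∑ j, (2 * (F j).reads i - 1) + (univ.filter (fun j => (F j).reads i ≠ 0)).card =
            2 * ∑ j, (F j).reads i := by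
          rw [card_filter, ← sum_add_distrib, mul_sum]
          exact sum_congr rfl fun j _ => e3 j
        omega
      refine h1.mono (by omega) ?_ ?_
      · rw [Fintype.card_prod, Fintype.card_fin, Fintype.card_pi]
        simp only [Fintype.card_coe]
        calc (k + 1) * (∏ j, (S j).card) * (M ^ (d * (d + 1)) + M ^ (3 * d + 1))
            ≤ M * (∏ j, B ^ (2 * (F j).reads i - 1)) * (M ^ (d * (d + 1)) + M ^ (3 * d + 1)) := by
              apply Nat.mul_le_mul_right
              exact Nat.mul_le_mul (by omega) (prod_le_prod' fun j _ => hS1 j)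
          _ = B ^ (∑ j, (2 * (F j).reads i - 1)) * (M * uc M d) := by
              rw [prod_pow_eq_pow_sum]
              unfold uc
              ring
          _ ≤ B ^ (∑ j, (2 * (F j).reads i - 1)) * B := Nat.mul_le_mul_left _ hB3
          _ = B ^ (∑ j, (2 * (F j).reads i - 1) + 1) := by rw [pow_succ]
          _ ≤ B ^ (2 * ∑ j, (F j).reads i - 1) := Nat.pow_le_pow_right hB4 (by omega)
      · rintro g ⟨z, u, hu, rfl⟩
        refine ⟨fun v => (sym k H ℓ F).eval (Function.update z i (y v)), ?_, u, hu, rfl⟩
        refine ⟨(⟨(univ.filter (fun j => (F j).reads i = 0 ∧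
          0 < aff (ℓ j) ((F j).eval z))).card, ?_⟩, fun j => ⟨_, hS2 j z⟩), ?_⟩
        · have := card_filter_le (univ : Finset (Fin k))
            (fun j => (F j).reads i = 0 ∧ 0 < aff (ℓ j) ((F j).eval z))
          rw [card_univ, Fintype.card_fin] at this
          omega
        · funext v
          rw [hf]
          simp only [eval, decide_eq_true_eq]
          congr 1
          have e2 : univ.filter (fun j => 0 < aff (ℓ j) ((F j).eval
                (Function.update z i (y v)))) =
              univ.filter (fun j => (F j).reads i = 0 ∧ 0 < aff (ℓ j) ((F j).eval z)) ∪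
              univ.filter (fun j => (F j).reads i ≠ 0 ∧
                0 < aff (ℓ j) ((F j).eval (Function.update z i (y v)))) := by
            ext j
            rw [mem_filter, mem_union, mem_filter, mem_filter]
            by_cases hj : (F j).reads i = 0
            · rw [(F j).eval_update i hj]
              simp [hj]
            · simp [hj]
          rw [e2, card_union_of_disjoint]
          rw [disjoint_filter]
          rintro j - ⟨h5, -⟩ ⟨h6, -⟩
          exact h6 h5

end Fml

namespace Test

open Classical in
/-- Few subfunctions. -/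
theorem subfunctions {Y : Type} [Fintype Y] (i : ι) (y : Y → D i) (s M B : ℕ) (hq : 1 ≤ q)
    (hM : 4 * Fintype.card Y * (5 * s + 1) + 2 + s ≤ M)
    (hB : B = 2 * q ^ (w - 1) * M ^ (d ^ 3 + 3 * d ^ 2 + 6 * d + 2)) (t : Test ι D w q d)
    (hs : t.size ≤ s) :
    ∃ S : Finset (Y → Bool), S.card ≤ 2 * B ^ (2 * t.fml.reads i) ∧
      ∀ z : (∀ i, D i), (fun v => t.accepts (Function.update z i (y v))) ∈ S := by
  obtain ⟨-, -, -, hB4⟩ := Fml.base_bound (M := M) (B := B) (q := q) (w := w) (d := d)
    (by omega) hq hB
  by_cases h : t.fml.reads i = 0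
  · refine ⟨(univ : Finset Bool).image (fun c => fun _ => c), ?_, fun z => ?_⟩
    · refine card_image_le.trans ?_
      simp [h]
    · rw [mem_image]
      refine ⟨t.accepts z, mem_univ _, ?_⟩
      funext v
      unfold accepts
      rw [t.fml.eval_update i h]
  · have hr := t.fml.reads_le_size i
    have hs' : t.fml.size ≤ s := hs
    obtain ⟨S, h1, h2⟩ := (t.fml.cov i y s M B hq hM hB hs (by omega)).bool' (by
      have : 4 * Fintype.card Y * (5 * t.fml.reads i - 2) ≤ 4 * Fintype.card Y * (5 * s + 1) :=
        Nat.mul_le_mul_left _ (by omega)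
      omega) t.aff
    refine ⟨S, h1.trans ?_, fun z => ?_⟩
    · calc B ^ (2 * t.fml.reads i - 1) ≤ B ^ (2 * t.fml.reads i) :=
          Nat.pow_le_pow_right hB4 (by omega)
        _ ≤ 2 * B ^ (2 * t.fml.reads i) := by omega
    · exact h2 _ (t.fml.mem_sub_id i y z)

end Test

end Pool.Agent.K4H88.TF
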