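import Pool.Agent.K4H88.TF.Defs
import Pool.Agent.Helper448.Warren

set_option autoImplicit false

/-! # Families of vector-valued functions which are given by few polynomials -/

namespace Pool.Agent.K4H88.TF

open Finset MvPolynomial

variable {d : ℕ}

theorem aff_eq (ℓ : Option (Fin d) → ℝ) (u : Fin d → ℝ) :
    aff ℓ u = ℓ none + ∑ k, ℓ (some k) * u k := by
  unfold aff
  rw [Fintype.sum_option]
  simp [ext]

/-- affine functions, and affine functions of a threshold test -/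
def Un (u : (Fin d → ℝ) → (Fin d → ℝ)) : Prop :=
  (∃ A : Fin d → Option (Fin d) → ℝ, u = fun v k => aff (A k) v) ∨
    ∃ (a b : Fin d → ℝ) (ℓ : Option (Fin d) → ℝ),
      u = fun v k => a k * (if 0 < aff ℓ v then 1 else 0) + b k

theorem Un.id : Un (fun v : Fin d → ℝ => v) := by
  refine Or.inl ⟨fun k a => if a = some k then 1 else 0, ?_⟩
  funext v k
  rw [aff_eq]
  simp

/-- composition of affine functions -/
theorem aff_comp (ℓ : Option (Fin d) → ℝ) (A : Fin d → Option (Fin d) → ℝ) :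
    ∃ ℓ' : Option (Fin d) → ℝ, ∀ v, aff ℓ (fun k => aff (A k) v) = aff ℓ' v := by
  refine ⟨fun a => (if a = none then ℓ none else 0) + ∑ k, ℓ (some k) * A k a, fun v => ?_⟩
  rw [aff_eq ℓ]
  have e1 : aff (fun a => (if a = none then ℓ none else 0) + ∑ k, ℓ (some k) * A k a) v =
      ∑ a, (if a = none then ℓ none else 0) * ext v a +
        ∑ a, (∑ k, ℓ (some k) * A k a) * ext v a := by
    unfold aff
    rw [← sum_add_distrib]
    exact sum_congr rfl fun a _ => by rw [add_mul]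
  rw [e1]
  congr 1
  · rw [Fintype.sum_option]
    simp [ext]
  · simp only [sum_mul]
    rw [sum_comm]
    refine sum_congr rfl fun k _ => ?_
    unfold aff
    rw [mul_sum]
    exact sum_congr rfl fun a _ => by rw [mul_assoc]

theorem Un.comp {u : (Fin d → ℝ) → (Fin d → ℝ)} (h : Un u) (A : Fin d → Option (Fin d) → ℝ) :
    Un (fun v => u (fun k => aff (A k) v)) := by
  rcases h with ⟨B, rfl⟩ | ⟨a, b, ℓ, rfl⟩
  · choose B' hB' using fun k => aff_comp (B k) A
    exact Or.inl ⟨B', by funext v k; exact hB' k v⟩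
  · obtain ⟨ℓ', hℓ'⟩ := aff_comp ℓ A
    refine Or.inr ⟨a, b, ℓ', ?_⟩
    funext v k
    simp only [hℓ']

theorem Un.bool (ℓ : Option (Fin d) → ℝ) (φ : Bool → Fin d → ℝ) :
    Un (fun v => φ (decide (0 < aff ℓ v))) := by
  refine Or.inr ⟨fun k => φ true k - φ false k, φ false, ℓ, ?_⟩
  funext x k
  by_cases h : 0 < aff ℓ x
  · rw [decide_eq_true h, if_pos h]
    ring
  · rw [decide_eq_false h, if_neg h]
    ring

variable {Y : Type} {M g g' W W' : ℕ} {𝒢 𝒢' : Set (Y → Fin d → ℝ)}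

/-- The functions in `𝒢` are given by finitely many families of polynomials of degree at most `g`;
a family with `p` parameters is counted with the weight `M ^ p`. -/
def Cov (M g W : ℕ) (𝒢 : Set (Y → Fin d → ℝ)) : Prop :=
  ∃ (κ : Type) (_ : Fintype κ) (p : κ → ℕ)
    (P : (k : κ) → Y → Fin d → MvPolynomial (Fin (p k)) ℝ),
    (∀ k v j, (P k v j).totalDegree ≤ g) ∧ (∑ k, M ^ p k ≤ W) ∧
    ∀ f ∈ 𝒢, ∃ (k : κ) (θ : Fin (p k) → ℝ), ∀ v j, f v j = eval θ (P k v j)

theorem Cov.mono (h : Cov M g W 𝒢) (hd : g ≤ g') (hW : W ≤ W') (hG : 𝒢' ⊆ 𝒢) :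
    Cov M g' W' 𝒢' := by
  obtain ⟨κ, _, p, P, h1, h2, h3⟩ := h
  exact ⟨κ, _, p, P, fun k v j => (h1 k v j).trans hd, h2.trans hW, fun f hf => h3 f (hG hf)⟩

theorem cov_of_finite {κ : Type} [Fintype κ] (f : κ → Y → Fin d → ℝ) :
    Cov M 0 (Fintype.card κ) (Set.range f) := by
  refine ⟨κ, inferInstance, fun _ => 0, fun k v j => C (f k v j), fun k v j => ?_, ?_, ?_⟩
  · simp
  · simp
  · rintro g ⟨k, rfl⟩
    exact ⟨k, fun _ => 0, fun v j => by simp⟩

/-- constant functions -/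
theorem cov_const : Cov M 1 (M ^ d) (Set.range fun (u : Fin d → ℝ) (_ : Y) => u) := by
  refine ⟨Unit, inferInstance, fun _ => d, fun _ _ j => X j, fun _ _ j => ?_, ?_, ?_⟩
  · rw [totalDegree_X]
  · simp
  · rintro g ⟨u, rfl⟩
    exact ⟨(), u, fun v j => by simp⟩

/-- the coordinates and the constant `1`, as polynomials -/
noncomputable def extP {σ : Type} (P : Fin d → MvPolynomial σ ℝ) : Option (Fin d) → MvPolynomial σ ℝ
  | none => 1
  | some k => P k

theorem extP_degree {σ : Type} (P : Fin d → MvPolynomial σ ℝ) (h : ∀ j, (P j).totalDegree ≤ g)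
    (a : Option (Fin d)) : (extP P a).totalDegree ≤ g := by
  cases a with
  | none => simp [extP]
  | some k => exact h k

theorem extP_eval {σ : Type} (P : Fin d → MvPolynomial σ ℝ) (θ : σ → ℝ) (a : Option (Fin d)) :
    eval θ (extP P a) = ext (fun j => eval θ (P j)) a := by
  cases a with
  | none => simp [extP, ext]
  | some k => rfl

/-- gates -/
theorem Cov.gate {κ : Type} [Fintype κ] (c : κ → Y → Fin d → Option (Fin d) → Option (Fin d) → ℝ)
    {g₁ g₂ W₁ W₂ : ℕ} {𝒢₁ 𝒢₂ : Set (Y → Fin d → ℝ)}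
    (h₁ : Cov M g₁ W₁ 𝒢₁) (h₂ : Cov M g₂ W₂ 𝒢₂) :
    Cov M (g₁ + g₂) (Fintype.card κ * (W₁ * W₂)) {f | ∃ k, ∃ f₁ ∈ 𝒢₁, ∃ f₂ ∈ 𝒢₂,
      f = fun v j => ∑ a, ∑ b, c k v j a b * (ext (f₁ v) a * ext (f₂ v) b)} := by
  obtain ⟨κ₁, _, p₁, P₁, a1, a2, a3⟩ := h₁
  obtain ⟨κ₂, _, p₂, P₂, b1, b2, b3⟩ := h₂
  refine ⟨κ × (κ₁ × κ₂), inferInstance, fun k => p₁ k.2.1 + p₂ k.2.2, fun k v j =>
    ∑ a, ∑ b, C (c k.1 v j a b) * (rename (Fin.castAdd (p₂ k.2.2)) (extP (P₁ k.2.1 v) a) *
      rename (Fin.natAdd (p₁ k.2.1)) (extP (P₂ k.2.2 v) b)), fun k v j => ?_, ?_, ?_⟩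
  · refine (totalDegree_finsetSum _ _).trans (Finset.sup_le fun a _ => ?_)
    refine (totalDegree_finsetSum _ _).trans (Finset.sup_le fun b _ => ?_)
    refine (totalDegree_mul _ _).trans ?_
    rw [totalDegree_C, zero_add]
    refine (totalDegree_mul _ _).trans ?_
    exact Nat.add_le_add ((totalDegree_rename_le _ _).trans (extP_degree _ (a1 _ _) a))
      ((totalDegree_rename_le _ _).trans (extP_degree _ (b1 _ _) b))
  · rw [Fintype.sum_prod_type]
    simp only [sum_const, card_univ, smul_eq_mul]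
    apply Nat.mul_le_mul_left
    rw [Fintype.sum_prod_type]
    calc ∑ x : κ₁, ∑ y : κ₂, M ^ (p₁ x + p₂ y)
        = (∑ x : κ₁, M ^ p₁ x) * ∑ y : κ₂, M ^ p₂ y := by
          rw [sum_mul]
          refine sum_congr rfl fun x _ => ?_
          rw [mul_sum]
          exact sum_congr rfl fun y _ => by rw [pow_add]
      _ ≤ W₁ * W₂ := Nat.mul_le_mul a2 b2
  · rintro f ⟨k, f₁, hf₁, f₂, hf₂, rfl⟩
    obtain ⟨k₁, θ₁, h1⟩ := a3 f₁ hf₁
    obtain ⟨k₂, θ₂, h2⟩ := b3 f₂ hf₂
    refine ⟨(k, (k₁, k₂)), Fin.append θ₁ θ₂, fun v j => ?_⟩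
    have e1 : ∀ P : MvPolynomial (Fin (p₁ k₁)) ℝ,
        eval (Fin.append θ₁ θ₂) (rename (Fin.castAdd (p₂ k₂)) P) = eval θ₁ P := by
      intro P
      rw [eval_rename]
      congr 2
      funext x
      simp
    have e2 : ∀ P : MvPolynomial (Fin (p₂ k₂)) ℝ,
        eval (Fin.append θ₁ θ₂) (rename (Fin.natAdd (p₁ k₁)) P) = eval θ₂ P := by
      intro P
      rw [eval_rename]
      congr 2
      funext x
      simp
    rw [map_sum]
    refine sum_congr rfl fun a _ => ?_
    rw [map_sum]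
    refine sum_congr rfl fun b _ => ?_
    rw [map_mul, map_mul, eval_C, e1, e2, extP_eval, extP_eval]
    have g1 : f₁ v = fun j => eval θ₁ (P₁ k₁ v j) := funext fun j => h1 v j
    have g2 : f₂ v = fun j => eval θ₂ (P₂ k₂ v j) := funext fun j => h2 v j
    rw [g1, g2]

open Classical in
/-- few sign patterns -/
theorem Cov.bool [Fintype Y] (h : Cov M g W 𝒢) (hM : 4 * Fintype.card Y * (g + 1) + 2 ≤ M) :
    ∃ S : Finset (Y → Bool), S.card ≤ W * M ^ (d + 1) ∧
      ∀ f ∈ 𝒢, ∀ ℓ : Option (Fin d) → ℝ, (fun v => decide (0 < aff ℓ (f v))) ∈ S := by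
  obtain ⟨κ, _, p, P, h1, h2, h3⟩ := h
  obtain ⟨Q, hQ⟩ : ∃ Q : (k : κ) → Y → MvPolynomial (Fin (p k + (d + 1))) ℝ, Q = fun k v =>
    X (Fin.natAdd (p k) 0) + ∑ j : Fin d,
      X (Fin.natAdd (p k) j.succ) * rename (Fin.castAdd (d + 1)) (P k v j) := ⟨_, rfl⟩
  have hQd : ∀ k v, (Q k v).totalDegree ≤ g + 1 := by
    intro k v
    rw [hQ]
    refine (totalDegree_add _ _).trans (max_le ?_ ?_)
    · rw [totalDegree_X]
      omega
    · refine (totalDegree_finsetSum _ _).trans (Finset.sup_le fun j _ => ?_)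
      refine (totalDegree_mul _ _).trans ?_
      rw [totalDegree_X, add_comm]
      exact Nat.add_le_add_right ((totalDegree_rename_le _ _).trans (h1 k v j)) 1
  have hQe : ∀ k v (θ : Fin (p k) → ℝ) (ℓ : Option (Fin d) → ℝ),
      eval (Fin.append θ (Fin.cons (ℓ none) fun j => ℓ (some j) : Fin (d + 1) → ℝ)) (Q k v) =
        aff ℓ (fun j => eval θ (P k v j)) := by
    intro k v θ ℓ
    rw [hQ, aff_eq]
    simp only [map_add, map_sum, map_mul, eval_X, Fin.append_right, eval_rename]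
    have e : (Fin.append θ (Fin.cons (ℓ none) fun j => ℓ (some j) : Fin (d + 1) → ℝ)) ∘
        (Fin.castAdd (d + 1)) = θ := by
      funext x
      simp
    rw [e]
    simp
  refine ⟨univ.biUnion (fun k : κ => (Set.toFinite (Set.range
    (fun θ : Fin (p k + (d + 1)) → ℝ => fun v : Y =>
      SignType.sign (eval θ (Q k v))))).toFinset.image (fun σ => fun v => decide (σ v = 1))), ?_, ?_⟩
  · refine card_biUnion_le.trans ?_
    calc _ ≤ ∑ k : κ, M ^ (p k + (d + 1)) := by
          apply sum_le_sum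
          intro k _
          refine card_image_le.trans ?_
          rw [← Set.ncard_eq_toFinset_card]
          refine (Pool.Agent.Helper448.Warren.ncard_sign_patterns_le (Q k) (g + 1) (hQd k)).trans ?_
          rw [Fintype.card_fin]
          exact Nat.pow_le_pow_left hM _
      _ = (∑ k, M ^ p k) * M ^ (d + 1) := by
          rw [sum_mul]
          exact sum_congr rfl fun k _ => by rw [pow_add]
      _ ≤ W * M ^ (d + 1) := Nat.mul_le_mul_right _ h2
  · intro f hf ℓ
    obtain ⟨k, θ, hk⟩ := h3 f hf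
    rw [mem_biUnion]
    refine ⟨k, mem_univ _, ?_⟩
    rw [mem_image]
    refine ⟨fun v => SignType.sign (eval (Fin.append θ
      (Fin.cons (ℓ none) fun j => ℓ (some j) : Fin (d + 1) → ℝ)) (Q k v)), ?_, ?_⟩
    · rw [Set.Finite.mem_toFinset]
      exact ⟨_, rfl⟩
    · funext v
      have e : f v = fun j => eval θ (P k v j) := funext fun j => hk v j
      simp only [hQe, e, sign_eq_one_iff]

open Classical in
/-- composition with unary functions -/
theorem Cov.un [Fintype Y] (h : Cov M g W 𝒢) (hM : 4 * Fintype.card Y * (g + 1) + 2 ≤ M) :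
    Cov M (g + 1) (W * (M ^ (d * (d + 1)) + M ^ (3 * d + 1)))
      {f' | ∃ f ∈ 𝒢, ∃ u, Un u ∧ f' = fun v => u (f v)} := by
  obtain ⟨S, hS1, hS2⟩ := h.bool hM
  obtain ⟨κ, _, p, P, h1, h2, h3⟩ := h
  -- the parameters of an affine map
  obtain ⟨ix, hix⟩ : ∃ ix : Fin d → Fin (d + 1) → Fin (d * (d + 1)),
      ix = fun k a => finProdFinEquiv (k, a) := ⟨_, rfl⟩
  obtain ⟨Q, hQ⟩ : ∃ Q : (k : κ) → Y → Fin d → MvPolynomial (Fin (p k + d * (d + 1))) ℝ,
    Q = fun k v i => X (Fin.natAdd (p k) (ix i 0)) + ∑ j : Fin d,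
      X (Fin.natAdd (p k) (ix i j.succ)) * rename (Fin.castAdd (d * (d + 1))) (P k v j) := ⟨_, rfl⟩
  have hQd : ∀ k v i, (Q k v i).totalDegree ≤ g + 1 := by
    intro k v i
    rw [hQ]
    refine (totalDegree_add _ _).trans (max_le ?_ ?_)
    · rw [totalDegree_X]
      omega
    · refine (totalDegree_finsetSum _ _).trans (Finset.sup_le fun j _ => ?_)
      refine (totalDegree_mul _ _).trans ?_
      rw [totalDegree_X, add_comm]
      exact Nat.add_le_add_right ((totalDegree_rename_le _ _).trans (h1 k v j)) 1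
  have hQe : ∀ k v i (θ : Fin (p k) → ℝ) (A : Fin d → Option (Fin d) → ℝ),
      eval (Fin.append θ (fun t => (Fin.cons (A (finProdFinEquiv.symm t).1 none)
        (fun j => A (finProdFinEquiv.symm t).1 (some j)) : Fin (d + 1) → ℝ)
          (finProdFinEquiv.symm t).2)) (Q k v i) =
        aff (A i) (fun j => eval θ (P k v j)) := by
    intro k v i θ A
    rw [hQ, aff_eq]
    simp only [map_add, map_sum, map_mul, eval_X, Fin.append_right, eval_rename]
    have e : (Fin.append θ (fun t => (Fin.cons (A (finProdFinEquiv.symm t).1 none)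
        (fun j => A (finProdFinEquiv.symm t).1 (some j)) : Fin (d + 1) → ℝ)
          (finProdFinEquiv.symm t).2)) ∘ (Fin.castAdd (d * (d + 1))) = θ := by
      funext x
      simp
    rw [e, hix]
    simp
  refine ⟨κ ⊕ {σ // σ ∈ S}, inferInstance,
    fun k => Sum.rec (motive := fun _ => ℕ) (fun k => p k + d * (d + 1)) (fun _ => d + d) k,
    fun k => Sum.rec (motive := fun k => Y → Fin d → MvPolynomial (Fin (Sum.rec
      (motive := fun _ => ℕ) (fun k => p k + d * (d + 1)) (fun _ => d + d) k)) ℝ) (fun k => Q k)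
      (fun σ v j => X (Fin.castAdd d j) * C (if σ.1 v = true then 1 else 0) + X (Fin.natAdd d j)) k,
    ?_, ?_, ?_⟩
  · rintro (k | k) v j
    · exact hQd k v j
    · simp only
      refine (totalDegree_add _ _).trans (max_le ?_ ?_)
      · refine (totalDegree_mul _ _).trans ?_
        rw [totalDegree_X, totalDegree_C]
        omega
      · rw [totalDegree_X]
        omega
  · rw [Fintype.sum_sum_type]
    simp only
    rw [sum_const, card_univ, Fintype.card_coe, smul_eq_mul, Nat.left_distrib W]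
    apply Nat.add_le_add
    · calc ∑ k, M ^ (p k + d * (d + 1)) = (∑ k, M ^ p k) * M ^ (d * (d + 1)) := by
            rw [sum_mul]
            exact sum_congr rfl fun k _ => by rw [pow_add]
        _ ≤ _ := Nat.mul_le_mul_right _ h2
    · calc S.card * M ^ (d + d) ≤ (W * M ^ (d + 1)) * M ^ (d + d) := Nat.mul_le_mul_right _ hS1
        _ = W * M ^ (3 * d + 1) := by
            rw [mul_assoc, ← pow_add]
            congr 2
            ring
  · rintro f' ⟨f, hf, u, hu, rfl⟩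
    obtain ⟨k, θ, hk⟩ := h3 f hf
    have e : ∀ v, f v = fun j => eval θ (P k v j) := fun v => funext fun j => hk v j
    rcases hu with ⟨A, rfl⟩ | ⟨a, b, ℓ, rfl⟩
    · refine ⟨Sum.inl k, Fin.append θ (fun t => (Fin.cons (A (finProdFinEquiv.symm t).1 none)
        (fun j => A (finProdFinEquiv.symm t).1 (some j)) : Fin (d + 1) → ℝ)
          (finProdFinEquiv.symm t).2), fun v j => ?_⟩
      simp only
      rw [hQe, e v]
    · refine ⟨Sum.inr ⟨_, hS2 f hf ℓ⟩, Fin.append a b, fun v j => ?_⟩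
      simp only [map_add, map_mul, eval_X, eval_C, Fin.append_left, Fin.append_right,
        decide_eq_true_eq]

/-- gates with unknown coefficients -/
theorem Cov.gate' {g₁ g₂ W₁ W₂ : ℕ} {𝒢₁ 𝒢₂ : Set (Y → Fin d → ℝ)}
    (h₁ : Cov M g₁ W₁ 𝒢₁) (h₂ : Cov M g₂ W₂ 𝒢₂) :
    Cov M (g₁ + g₂ + 1) (M ^ (d * ((d + 1) * (d + 1))) * (W₁ * W₂))
      {f | ∃ c : Fin d → Option (Fin d) → Option (Fin d) → ℝ, ∃ f₁ ∈ 𝒢₁, ∃ f₂ ∈ 𝒢₂,
      f = fun v j => ∑ a, ∑ b, c j a b * (ext (f₁ v) a * ext (f₂ v) b)} := by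
  obtain ⟨κ₁, _, p₁, P₁, a1, a2, a3⟩ := h₁
  obtain ⟨κ₂, _, p₂, P₂, b1, b2, b3⟩ := h₂
  obtain ⟨N, hN⟩ : ∃ N, N = d * ((d + 1) * (d + 1)) := ⟨_, rfl⟩
  have hcard : Fintype.card (Fin d × Option (Fin d) × Option (Fin d)) = N := by
    rw [Fintype.card_prod, Fintype.card_prod, Fintype.card_option, Fintype.card_fin, hN]
  obtain ⟨e⟩ : Nonempty ((Fin d × Option (Fin d) × Option (Fin d)) ≃ Fin N) :=
    ⟨Fintype.equivFinOfCardEq hcard⟩
  rw [← hN]
  refine ⟨κ₁ × κ₂, inferInstance, fun k => N + (p₁ k.1 + p₂ k.2), fun k v j =>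
    ∑ a, ∑ b, X (Fin.castAdd (p₁ k.1 + p₂ k.2) (e (j, a, b))) *
      (rename (fun t => Fin.natAdd N (Fin.castAdd (p₂ k.2) t)) (extP (P₁ k.1 v) a) *
      rename (fun t => Fin.natAdd N (Fin.natAdd (p₁ k.1) t)) (extP (P₂ k.2 v) b)),
      fun k v j => ?_, ?_, ?_⟩
  · refine (totalDegree_finsetSum _ _).trans (Finset.sup_le fun a _ => ?_)
    refine (totalDegree_finsetSum _ _).trans (Finset.sup_le fun b _ => ?_)
    refine (totalDegree_mul _ _).trans ?_
    rw [totalDegree_X, add_comm]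
    apply Nat.add_le_add_right
    refine (totalDegree_mul _ _).trans ?_
    exact Nat.add_le_add ((totalDegree_rename_le _ _).trans (extP_degree _ (a1 _ _) a))
      ((totalDegree_rename_le _ _).trans (extP_degree _ (b1 _ _) b))
  · rw [Fintype.sum_prod_type]
    calc ∑ x : κ₁, ∑ y : κ₂, M ^ (N + (p₁ x + p₂ y))
        = M ^ N * ((∑ x : κ₁, M ^ p₁ x) * ∑ y : κ₂, M ^ p₂ y) := by
          rw [sum_mul, mul_sum]
          refine sum_congr rfl fun x _ => ?_
          rw [mul_sum, mul_sum]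
          exact sum_congr rfl fun y _ => by rw [pow_add, pow_add]
      _ ≤ M ^ N * (W₁ * W₂) := Nat.mul_le_mul_left _ (Nat.mul_le_mul a2 b2)
  · rintro f ⟨c, f₁, hf₁, f₂, hf₂, rfl⟩
    obtain ⟨k₁, θ₁, h1⟩ := a3 f₁ hf₁
    obtain ⟨k₂, θ₂, h2⟩ := b3 f₂ hf₂
    refine ⟨(k₁, k₂), Fin.append (fun t => c (e.symm t).1 (e.symm t).2.1 (e.symm t).2.2)
      (Fin.append θ₁ θ₂), fun v j => ?_⟩
    have e1 : ∀ P : MvPolynomial (Fin (p₁ k₁)) ℝ,
        eval (Fin.append (fun t => c (e.symm t).1 (e.symm t).2.1 (e.symm t).2.2)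
          (Fin.append θ₁ θ₂)) (rename (fun t => Fin.natAdd N (Fin.castAdd (p₂ k₂) t)) P) =
            eval θ₁ P := by
      intro P
      rw [eval_rename]
      congr 2
      funext x
      simp
    have e2 : ∀ P : MvPolynomial (Fin (p₂ k₂)) ℝ,
        eval (Fin.append (fun t => c (e.symm t).1 (e.symm t).2.1 (e.symm t).2.2)
          (Fin.append θ₁ θ₂)) (rename (fun t => Fin.natAdd N (Fin.natAdd (p₁ k₁) t)) P) =
            eval θ₂ P := by
      intro P
      rw [eval_rename]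
      congr 2
      funext x
      simp
    rw [map_sum]
    refine sum_congr rfl fun a _ => ?_
    rw [map_sum]
    refine sum_congr rfl fun b _ => ?_
    rw [map_mul, map_mul, eval_X, e1, e2, extP_eval, extP_eval, Fin.append_left]
    have g1 : f₁ v = fun j => eval θ₁ (P₁ k₁ v j) := funext fun j => h1 v j
    have g2 : f₂ v = fun j => eval θ₂ (P₂ k₂ v j) := funext fun j => h2 v j
    rw [g1, g2]
    simp

open Classical in
/-- few sign patterns of one affine function -/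
theorem Cov.bool' [Fintype Y] (h : Cov M g W 𝒢) (hM : 4 * Fintype.card Y * g + 2 ≤ M)
    (ℓ : Option (Fin d) → ℝ) :
    ∃ S : Finset (Y → Bool), S.card ≤ W ∧
      ∀ f ∈ 𝒢, (fun v => decide (0 < aff ℓ (f v))) ∈ S := by
  obtain ⟨κ, _, p, P, h1, h2, h3⟩ := h
  obtain ⟨Q, hQ⟩ : ∃ Q : (k : κ) → Y → MvPolynomial (Fin (p k)) ℝ, Q = fun k v =>
    C (ℓ none) + ∑ j : Fin d, C (ℓ (some j)) * P k v j := ⟨_, rfl⟩
  have hQd : ∀ k v, (Q k v).totalDegree ≤ g := by
    intro k v
    rw [hQ]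
    refine (totalDegree_add _ _).trans (max_le ?_ ?_)
    · rw [totalDegree_C]
      omega
    · refine (totalDegree_finsetSum _ _).trans (Finset.sup_le fun j _ => ?_)
      refine (totalDegree_mul _ _).trans ?_
      rw [totalDegree_C, zero_add]
      exact h1 k v j
  have hQe : ∀ k v (θ : Fin (p k) → ℝ), eval θ (Q k v) = aff ℓ (fun j => eval θ (P k v j)) := by
    intro k v θ
    rw [hQ, aff_eq]
    simp
  refine ⟨univ.biUnion (fun k : κ => (Set.toFinite (Set.range
    (fun θ : Fin (p k) → ℝ => fun v : Y =>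
      SignType.sign (eval θ (Q k v))))).toFinset.image (fun σ => fun v => decide (σ v = 1))), ?_, ?_⟩
  · refine card_biUnion_le.trans (le_trans ?_ h2)
    apply sum_le_sum
    intro k _
    refine card_image_le.trans ?_
    rw [← Set.ncard_eq_toFinset_card]
    refine (Pool.Agent.Helper448.Warren.ncard_sign_patterns_le (Q k) g (hQd k)).trans ?_
    rw [Fintype.card_fin]
    exact Nat.pow_le_pow_left hM _
  · intro f hf
    obtain ⟨k, θ, hk⟩ := h3 f hf
    rw [mem_biUnion]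
    refine ⟨k, mem_univ _, ?_⟩
    rw [mem_image]
    refine ⟨fun v => SignType.sign (eval θ (Q k v)), ?_, ?_⟩
    · rw [Set.Finite.mem_toFinset]
      exact ⟨_, rfl⟩
    · funext v
      have e : f v = fun j => eval θ (P k v j) := funext fun j => hk v j
      simp only [hQe, e, sign_eq_one_iff]

end Pool.Agent.K4H88.TF
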