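import Pool.Agent.K4H88.TF.BPDefs

set_option autoImplicit false

/-! # Tensor formulas -/

namespace Pool.Agent.K4H88.TF

open Finset

/-- What a leaf or a gate may see of the input, which consists of items `x i`, `i : ι`: nothing, or
one item, or `w` words, where a word is an arbitrary function of one item with `q` values. -/
inductive Look (ι : Type) (D : ι → Type) (w q : ℕ) : Type
  | nothing : Look ι D w q
  | one : ι → Look ι D w q
  | words : (item : Fin w → ι) → (view : ∀ k, D (item k) → Fin q) → Look ι D w q

namespace Look

variable {ι : Type} {D : ι → Type} {w q : ℕ}

/-- The possible outcomes. -/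
def Out : Look ι D w q → Type
  | nothing => Unit
  | one i => D i
  | words _ _ => Fin w → Fin q

/-- What is seen. -/
def see : (l : Look ι D w q) → (∀ i, D i) → l.Out
  | nothing, _ => ()
  | one i, x => x i
  | words item view, x => fun k => view k (x (item k))

/-- The costs of looking at the input: `0` if nothing is seen, `1` otherwise. -/
def cost : Look ι D w q → ℕ
  | nothing => 0
  | one _ => 1
  | words _ _ => 1

end Look

/-- The coordinates of a vector, and the constant `1`. -/
def ext {d : ℕ} (u : Fin d → ℝ) : Option (Fin d) → ℝ
  | none => 1
  | some k => u k

/-- The value at `u` of the affine function with the coefficients `ℓ` (`ℓ none` is the constant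
coefficient). -/
noncomputable def aff {d : ℕ} (ℓ : Option (Fin d) → ℝ) (u : Fin d → ℝ) : ℝ := ∑ a, ℓ a * ext u a

/-- Tensor formulas. Every wire carries a vector of `ℝ ^ d`.

* A leaf computes an arbitrary vector which depends on what it sees of the input.
* A gate computes an arbitrary function of two vectors which is affine in each of them, and which
  may depend in an arbitrary way on what the gate sees of the input.
* A gate `sym` of fan-in `k` tests for each of its inputs whether an affine function is positive, and
  it computes an arbitrary vector which depends on the number of the positive ones. -/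
inductive Fml (ι : Type) (D : ι → Type) (w q d : ℕ) : Type
  | leaf : (l : Look ι D w q) → (l.Out → Fin d → ℝ) → Fml ι D w q d
  | gate : (l : Look ι D w q) → (l.Out → Fin d → Option (Fin d) → Option (Fin d) → ℝ) →
      Fml ι D w q d → Fml ι D w q d → Fml ι D w q d
  | sym : (k : ℕ) → (ℕ → Fin d → ℝ) → (Fin k → Option (Fin d) → ℝ) → (Fin k → Fml ι D w q d) →
      Fml ι D w q d

namespace Fml

variable {ι : Type} {D : ι → Type} {w q d : ℕ}

/-- The value of the formula. -/
noncomputable def eval : Fml ι D w q d → (∀ i, D i) → Fin d → ℝ
  | leaf l f, x => f (l.see x)
  | gate l c F G, x => fun k => ∑ a, ∑ b, c (l.see x) k a b * (ext (F.eval x) a * ext (G.eval x) b)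
  | sym _ h ℓ F, x => h (univ.filter (fun j => 0 < aff (ℓ j) ((F j).eval x))).card

/-- The size: the number of the leaves and gates which see something of the input, and of the wires
which lead to gates `sym`. -/
def size : Fml ι D w q d → ℕ
  | leaf l _ => l.cost
  | gate l _ F G => l.cost + (F.size + G.size)
  | sym k _ _ F => k + ∑ j, (F j).size

end Fml

/-- A test: a tensor formula and an affine function. -/
structure Test (ι : Type) (D : ι → Type) (w q d : ℕ) where
  fml : Fml ι D w q d
  aff : Option (Fin d) → ℝ

namespace Test

variable {ι : Type} {D : ι → Type} {w q d : ℕ}

/-- Is the value of the affine function at the value of the formula positive? -/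
noncomputable def accepts (t : Test ι D w q d) (x : ∀ i, D i) : Bool :=
  decide (0 < TF.aff t.aff (t.fml.eval x))

/-- The size of the formula. -/
def size (t : Test ι D w q d) : ℕ := t.fml.size

end Test

end Pool.Agent.K4H88.TF
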