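import Pool.Agent.K4H88.TF.BPDefs
import Pool.Agent.Y638.RF.Lower

set_option autoImplicit false

/-! # Branching programs with tests which have few subfunctions -/

namespace Pool.Agent.K4H88.TF

open Finset Pool.Agent.TH697.Form Pool.Agent.TH697.Row Pool.Agent.Y638.RF

variable {Φ : Type}

namespace BP

/-- The number of reads of an item. -/
def reads (rd : Φ → ℕ) : {n : ℕ} → BP Φ n → ℕ
  | _, sinks => 0
  | _, node B φ _ _ => B.reads rd + rd φ

/-- The number of inner nodes whose tests see the item. -/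
def live (rd : Φ → ℕ) : {n : ℕ} → BP Φ n → ℕ
  | _, sinks => 0
  | _, node B φ _ _ => B.live rd + if rd φ = 0 then 0 else 1

theorem live_le (rd : Φ → ℕ) : ∀ {n : ℕ} (B : BP Φ n), B.live rd ≤ n
  | _, sinks => by simp [live]
  | _, node B φ _ _ => by
      have := live_le rd B
      simp only [live]
      split_ifs <;> omega

theorem live_le_reads (rd : Φ → ℕ) : ∀ {n : ℕ} (B : BP Φ n), B.live rd ≤ B.reads rd
  | _, sinks => by simp [live]
  | _, node B φ _ _ => by
      have := live_le_reads rd B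
      simp only [live, reads]
      split_ifs <;> omega

theorem nodes_le_size (sz : Φ → ℕ) : ∀ {n : ℕ} (B : BP Φ n), n ≤ B.size sz
  | _, sinks => by simp [size]
  | _, node B φ _ _ => by
      have := nodes_le_size sz B
      simp only [size]
      omega

theorem sum_reads_le {ι : Type} (I : Finset ι) (rd : ι → Φ → ℕ) (sz : Φ → ℕ) (w : ℕ)
    (h : ∀ φ, ∑ i ∈ I, rd i φ ≤ w * sz φ) :
    ∀ {n : ℕ} (B : BP Φ n), ∑ i ∈ I, B.reads (rd i) ≤ w * B.size sz
  | _, sinks => by simp [reads]
  | _, node B φ _ _ => by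
      simp only [reads, size, sum_add_distrib]
      have h1 := sum_reads_le I rd sz w h B
      have h2 := h φ
      rw [mul_add, mul_add]
      omega

variable {ι : Type} {D : ι → Type} [DecidableEq ι]

open Classical in
/-- The functions of item `i` at the nodes belong to a small family. -/
theorem families {Y : Type} [Fintype Y] (i : ι) (y : Y → D i) (acc : Φ → (∀ i, D i) → Bool)
    (rd sz : Φ → ℕ) (s E : ℕ) (hE1 : 1 ≤ E)
    (h0 : ∀ φ, rd φ = 0 → ∀ (z : ∀ i, D i) (d : D i), acc φ (Function.update z i d) = acc φ z)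
    (h1 : ∀ φ, sz φ ≤ s → ∃ S : Finset (Y → Bool), S.card ≤ 2 * E ^ (2 * rd φ) ∧
      ∀ z : (∀ i, D i), (fun v => acc φ (Function.update z i (y v))) ∈ S) :
    ∀ {n : ℕ} (B : BP Φ n), B.size sz ≤ s →
    ∃ 𝒮 : Finset (Fin (B.live rd + 2) → Y → Bool),
      𝒮.card ≤ (n + 2) ^ (2 * B.live rd) * (2 * E ^ 2) ^ B.reads rd ∧
      ∀ z : (∀ i, D i), ∃ t ∈ 𝒮, ∀ v : Fin (n + 2), ∃ j : Fin (B.live rd + 2),
        ∀ u, B.val acc (Function.update z i (y u)) v = t j u
  | _, sinks, _ => by
      refine ⟨{fun j _ => decide (j = 1)}, ?_, fun x => ⟨_, mem_singleton_self _, ?_⟩⟩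
      · rw [card_singleton]
        exact Nat.one_le_iff_ne_zero.2 (by simp [live, reads])
      intro v
      exact ⟨v, fun d => rfl⟩
  | _, @node _ n B F no yes, hs => by
      simp only [size] at hs
      obtain ⟨𝒮, hcard, hS⟩ := families i y acc rd sz s E hE1 h0 h1 B (by omega)
      have hpos : 1 ≤ (2 * E ^ 2) := by
        have : 1 ≤ E ^ 2 := Nat.one_le_pow _ _ hE1
        omega
      by_cases hF : rd F = 0
      · have hr : (node B F no yes).live rd = B.live rd := by simp [live, hF]
        rw [hr]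
        refine ⟨𝒮, hcard.trans (Nat.mul_le_mul (Nat.pow_le_pow_left (by omega) _)
          (Nat.pow_le_pow_right hpos (by simp [reads]))), fun z => ?_⟩
        obtain ⟨t, ht, hv⟩ := hS z
        refine ⟨t, ht, fun v => ?_⟩
        have hacc : ∀ d, acc F (Function.update z i d) = acc F z := fun d => h0 F hF z d
        refine Fin.lastCases ?_ (fun u => ?_) v
        · cases hp : acc F z with
          | true =>
            obtain ⟨j, hj⟩ := hv yes
            refine ⟨j, fun u => ?_⟩
            simp only [val, Fin.lastCases_last, hacc, hp, if_true]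
            exact hj u
          | false =>
            obtain ⟨j, hj⟩ := hv no
            refine ⟨j, fun u => ?_⟩
            simp only [val, Fin.lastCases_last, hacc, hp, Bool.false_eq_true, if_false]
            exact hj u
        · obtain ⟨j, hj⟩ := hv u
          refine ⟨j, fun u' => ?_⟩
          simp only [val, Fin.lastCases_castSucc]
          exact hj u'
      · obtain ⟨S1, hS1, hS2⟩ := h1 F (by omega)
        have hr : (node B F no yes).live rd = B.live rd + 1 := by simp [live, hF]
        rw [hr]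
        refine ⟨((𝒮 ×ˢ (univ : Finset (Fin (B.live rd + 2) × Fin (B.live rd + 2)))) ×ˢ
          S1).image
          (fun a => Fin.lastCases (motive := fun _ => Y → Bool)
            (fun u => if a.2 u then a.1.1 a.1.2.1 u else a.1.1 a.1.2.2 u)
            (fun j => a.1.1 j)), ?_, ?_⟩
        · refine card_image_le.trans ?_
          rw [card_product, card_product, card_univ, Fintype.card_prod, Fintype.card_fin]
          have h2 : B.live rd ≤ n := live_le rd B
          have hS3 : S1.card ≤ (2 * E ^ 2) ^ rd F := by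
            refine hS1.trans ?_
            rw [mul_pow, ← pow_mul]
            apply Nat.mul_le_mul_right
            calc 2 = 2 ^ 1 := rfl
              _ ≤ 2 ^ rd F := Nat.pow_le_pow_right (by norm_num) (by omega)
          calc 𝒮.card * ((B.live rd + 2) * (B.live rd + 2)) * S1.card
              ≤ (((n + 1 + 2) ^ (2 * B.live rd) * (2 * E ^ 2) ^ B.reads rd) *
                  ((n + 1 + 2) * (n + 1 + 2))) * (2 * E ^ 2) ^ rd F := by
                apply Nat.mul_le_mul _ hS3
                apply Nat.mul_le_mul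
                · exact hcard.trans (Nat.mul_le_mul_right _ (Nat.pow_le_pow_left (by omega) _))
                · exact Nat.mul_le_mul (by omega) (by omega)
            _ = (n + 1 + 2) ^ (2 * (B.live rd + 1)) *
                  (2 * E ^ 2) ^ (node B F no yes).reads rd := by
                simp only [reads]
                rw [show 2 * (B.live rd + 1) = 2 * B.live rd + 2 by ring, pow_add, pow_add]
                ring
        · intro z
          obtain ⟨t, ht, hv⟩ := hS z
          obtain ⟨j1, hj1⟩ := hv yes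
          obtain ⟨j2, hj2⟩ := hv no
          refine ⟨_, mem_image.2 ⟨((t, (j1, j2)), fun u => acc F (Function.update z i (y u))),
            mem_product.2 ⟨mem_product.2 ⟨ht, mem_univ _⟩, hS2 z⟩, rfl⟩, ?_⟩
          intro v
          refine Fin.lastCases ?_ (fun u => ?_) v
          · refine ⟨Fin.last _, fun u => ?_⟩
            simp only [val, Fin.lastCases_last]
            rw [hj1 u, hj2 u]
          · obtain ⟨j, hj⟩ := hv u
            refine ⟨j.castSucc, fun u' => ?_⟩
            simp only [val, Fin.lastCases_castSucc]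
            exact hj u'

open Classical in
/-- Few subfunctions. -/
theorem subfunctions {Y : Type} [Fintype Y] (i : ι) (y : Y → D i) (acc : Φ → (∀ i, D i) → Bool)
    (rd sz : Φ → ℕ) (s M E : ℕ) (hE1 : 1 ≤ E) (hM : s + 2 ≤ M)
    (h0 : ∀ φ, rd φ = 0 → ∀ (z : ∀ i, D i) (d : D i), acc φ (Function.update z i d) = acc φ z)
    (h1 : ∀ φ, sz φ ≤ s → ∃ S : Finset (Y → Bool), S.card ≤ 2 * E ^ (2 * rd φ) ∧
      ∀ z : (∀ i, D i), (fun v => acc φ (Function.update z i (y v))) ∈ S)
    {n : ℕ} (B : BP Φ n) (hs : B.size sz ≤ s) (v : Fin (n + 2)) :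
    ∃ S : Finset (Y → Bool), S.card ≤ M * (2 * M ^ 2 * E ^ 2) ^ B.reads rd ∧
      ∀ z : (∀ i, D i), (fun u => B.val acc (Function.update z i (y u)) v) ∈ S := by
  obtain ⟨𝒮, hcard, hS⟩ := families i y acc rd sz s E hE1 h0 h1 B hs
  refine ⟨(𝒮 ×ˢ (univ : Finset (Fin (B.live rd + 2)))).image (fun a => a.1 a.2), ?_, ?_⟩
  · refine card_image_le.trans ?_
    rw [card_product, card_univ, Fintype.card_fin]
    have h1 : B.live rd ≤ n := live_le rd B
    have h2 : B.live rd ≤ B.reads rd := live_le_reads rd B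
    have h3 : n ≤ B.size sz := nodes_le_size sz B
    have h4 : 1 ≤ M := by omega
    calc 𝒮.card * (B.live rd + 2) ≤ (M ^ (2 * B.reads rd) * (2 * E ^ 2) ^ B.reads rd) * M := by
          apply Nat.mul_le_mul _ (by omega)
          refine hcard.trans (Nat.mul_le_mul_right _ ?_)
          calc (n + 2) ^ (2 * B.live rd) ≤ M ^ (2 * B.live rd) :=
                Nat.pow_le_pow_left (by omega) _
            _ ≤ M ^ (2 * B.reads rd) := Nat.pow_le_pow_right h4 (by omega)
      _ = _ := by
          rw [pow_mul, ← mul_pow]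
          ring
  · intro z
    obtain ⟨t, ht, hv⟩ := hS z
    obtain ⟨j, hj⟩ := hv v
    exact mem_image.2 ⟨(t, j), mem_product.2 ⟨ht, mem_univ _⟩, by funext u; exact (hj u).symm⟩

end BP

variable {ι : Type} {D : ι → Type} [DecidableEq ι] {T : Type} [Fintype T] {Ω : Type} [Fintype Ω]

/-- The lower bound for random branching programs. -/
theorem program_lower (μ : Ω → ℝ) (hμ : IsProb μ) (acc : Φ → (∀ i, D i) → Bool) (rd : ι → Φ → ℕ)
    (sz : Φ → ℕ) (s : ℕ) (B : Ω → Prog Φ sz s)
    (P : (∀ i, D i) → Prop) (f : (∀ i, D i) → Bool)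
    (hF : ApproximatesOn μ (fun ω x => (B ω).bp.val acc x (B ω).start) P f)
    (w K M E : ℕ) (hE : 1 ≤ E) (hM : s + 2 ≤ M) (δ : ℝ)
    (hsum : ∀ (I : Finset ι) φ, ∑ i ∈ I, rd i φ ≤ w * sz φ)
    (h0 : ∀ i φ, rd i φ = 0 → ∀ (z : ∀ i, D i) (d : D i),
      acc φ (Function.update z i d) = acc φ z)
    (h1 : ∀ (i : ι) (Y : Type) [Fintype Y] (y : Y → D i), Fintype.card Y ≤ K → ∀ φ, sz φ ≤ s →
      ∃ S : Finset (Y → Bool), S.card ≤ 2 * E ^ (2 * rd i φ) ∧
        ∀ z : (∀ i, D i), (fun v => acc φ (Function.update z i (y v))) ∈ S)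
    (I : Finset ι) (h : ∀ i ∈ I, Asks T K δ P f i) :
    (I.card : ℝ) * ((49 / 600 - δ) * Fintype.card T - Real.logb 2 M) ≤
      w * (1 + 2 * Real.logb 2 M + 2 * Real.logb 2 E) * s := by
  classical
  have h6 : (0 : ℝ) < Real.log 2 := Real.log_pos (by norm_num)
  have hlM : 0 ≤ Real.log (M : ℝ) := Real.log_nonneg (by exact_mod_cast (by omega : 1 ≤ M))
  have hlE : 0 ≤ Real.log (E : ℝ) := Real.log_nonneg (by exact_mod_cast hE)
  obtain ⟨c, hc⟩ : ∃ c : ℝ, c = Real.log 2 + 2 * Real.log M + 2 * Real.log E := ⟨_, rfl⟩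
  have hc0 : 0 ≤ c := by rw [hc]; positivity
  have hM' : (0 : ℝ) < M := by exact_mod_cast (by omega : 0 < M)
  have hE' : (0 : ℝ) < E := by exact_mod_cast hE
  have hcE : c = Real.log (2 * M ^ 2 * E ^ 2) := by
    rw [hc, Real.log_mul (by positivity) (by positivity), Real.log_mul (by positivity)
      (by positivity), Real.log_pow, Real.log_pow]
    push_cast
    ring
  have h1 : ∀ i ∈ I, (49 / 600 - δ) * Fintype.card T * Real.log 2
      ≤ ∑ ω, μ ω * (Real.log M + c * ((B ω).bp.reads (rd i) : ℝ)) := by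
    intro i hi
    obtain ⟨A, r, Q, R, hA, hQA, hQ, hP, hf⟩ := h i hi
    obtain ⟨y, hy⟩ : ∃ y : {d // d ∈ A} → D i, y = fun v => v.1 := ⟨_, rfl⟩
    have hK : Fintype.card {d // d ∈ A} ≤ K := by
      rw [Fintype.card_coe]; exact hA
    choose S hS1 hS2 using fun ω =>
      BP.subfunctions i y acc (rd i) sz s M E hE hM (h0 i) (h1 i _ y hK) (B ω).bp (B ω).size_le
        (B ω).start
    refine (gen_err μ hμ (fun ω x => (B ω).bp.val acc x (B ω).start) P f hF i y S
      (fun ω z => hS2 ω z) r
      (fun t z => ⟨Q t z, hQA t z⟩) (fun t z z' hz => Subtype.ext (hQ t z z' hz)) R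
      (fun t z => by rw [hy]; exact hP t z) δ (by rw [hy]; exact hf)).trans ?_
    apply sum_le_sum
    intro ω _
    apply mul_le_mul_of_nonneg_left _ (hμ.nonneg ω)
    have hne : 1 ≤ (S ω).card := card_pos.2 ⟨_, hS2 ω (R (fun _ => false))⟩
    have h2 : ((S ω).card : ℝ) ≤ M * (2 * (M : ℝ) ^ 2 * (E : ℝ) ^ 2) ^ (B ω).bp.reads (rd i) := by
      exact_mod_cast hS1 ω
    have h4 := Real.log_le_log (by exact_mod_cast hne) h2
    rw [Real.log_mul (by positivity) (by positivity), Real.log_pow, ← hcE] at h4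
    linarith
  have h2 := sum_le_sum h1
  rw [sum_const, nsmul_eq_mul, sum_comm] at h2
  have h3 : ∑ ω, ∑ i ∈ I, μ ω * (Real.log M + c * ((B ω).bp.reads (rd i) : ℝ)) ≤
      I.card * Real.log M + c * w * s := by
    have e1 : (I.card : ℝ) * Real.log M + c * w * s =
        ∑ ω, μ ω * (I.card * Real.log M + c * w * s) := by
      rw [← sum_mul, hμ.sum_one, one_mul]
    rw [e1]
    apply sum_le_sum
    intro ω _
    rw [← mul_sum]
    apply mul_le_mul_of_nonneg_left _ (hμ.nonneg ω)
    rw [sum_add_distrib, sum_const, nsmul_eq_mul, ← mul_sum]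
    have h5 : ∑ i ∈ I, ((B ω).bp.reads (rd i) : ℝ) ≤ w * s := by
      have h8 : ∑ i ∈ I, (B ω).bp.reads (rd i) ≤ w * s :=
        (BP.sum_reads_le I rd sz w (hsum I) (B ω).bp).trans (Nat.mul_le_mul_left _ (B ω).size_le)
      exact_mod_cast h8
    have h7 := mul_le_mul_of_nonneg_left h5 hc0
    linarith
  have h4 := h2.trans h3
  have h7 : w * (1 + 2 * Real.logb 2 M + 2 * Real.logb 2 E) * s * Real.log 2 = c * w * s := by
    rw [hc, Real.logb, Real.logb]
    field_simp
  have h8 : (I.card : ℝ) * ((49 / 600 - δ) * Fintype.card T - Real.logb 2 M) * Real.log 2 =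
      I.card * ((49 / 600 - δ) * Fintype.card T * Real.log 2) - I.card * Real.log M := by
    rw [Real.logb]
    field_simp
  have h5 : (I.card : ℝ) * ((49 / 600 - δ) * Fintype.card T - Real.logb 2 M) * Real.log 2 ≤
      w * (1 + 2 * Real.logb 2 M + 2 * Real.logb 2 E) * s * Real.log 2 := by
    rw [h7, h8]
    linarith
  exact le_of_mul_le_mul_right h5 h6

end Pool.Agent.K4H88.TF
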