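import Pool.Agent.K4H88.TF.Core
import Pool.Agent.K4H88.TF.Gen
import Pool.Agent.R617.RFS.Sum

set_option autoImplicit false

/-! # 3SUM and tensor formulas -/

namespace Pool.Agent.K4H88.TF

open Finset Pool.Agent.TH697.Form Pool.Agent.TH697.Row Pool.Agent.TH697.Form.ThreeSum
open Pool.Agent.TH457.Ary.ThreeSum

variable {n c w d : ℕ}

/-- the arithmetic -/
theorem arith {n g c w d N L l e s : ℝ} (hn : 1000 ≤ n) (hg : 8 ≤ g) (hc : 1 ≤ c) (hw : 1 ≤ w)
    (hd : 1 ≤ d) (he : e ≤ 12 * d ^ 3)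
    (hN : n * g / 7 ≤ N) (hl0 : 0 ≤ l) (hl : l ≤ 9 / 8 * g) (hL : L ≤ 4 / 3 * c * g) (hs : 0 ≤ s)
    (h : n * ((49 / 600 - 0) * N - 5 * l) ≤
      w * (1 + 2 * (5 * l) + 2 * (1 + (w - 1) * L + e * (5 * l))) * s) :
    n ^ 2 ≤ 25000 * w * (d ^ 3 + c * w) * s := by
  have h0 : 1000 * g ≤ n * g := mul_le_mul_of_nonneg_right hn (by linarith)
  have h1 : 3 / 500 * (n * g) ≤ (49 / 600 - 0) * N - 5 * l := by linarith
  have h2 : n * (3 / 500 * (n * g)) ≤ n * ((49 / 600 - 0) * N - 5 * l) :=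
    mul_le_mul_of_nonneg_left h1 (by linarith)
  have hd3 : 1 ≤ d ^ 3 := one_le_pow₀ hd
  have h3 : w * (1 + 2 * (5 * l) + 2 * (1 + (w - 1) * L + e * (5 * l))) ≤
      w * (g * (147 * d ^ 3 + 8 / 3 * (c * w))) := by
    apply mul_le_mul_of_nonneg_left _ (by linarith)
    have h4 : (w - 1) * L ≤ (w - 1) * (4 / 3 * c * g) := mul_le_mul_of_nonneg_left hL (by linarith)
    have h5 : e * (5 * l) ≤ 12 * d ^ 3 * (5 * l) := mul_le_mul_of_nonneg_right he (by linarith)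
    have h6 : 12 * d ^ 3 * (5 * l) ≤ 12 * d ^ 3 * (5 * (9 / 8 * g)) :=
      mul_le_mul_of_nonneg_left (by linarith) (by linarith)
    have h7 : (w - 1) * (4 / 3 * c * g) ≤ w * (4 / 3 * c * g) := by
      apply mul_le_mul_of_nonneg_right (by linarith)
      have : 0 ≤ c * g := mul_nonneg (by linarith) (by linarith)
      linarith
    have h8 : g * 1 ≤ g * d ^ 3 := mul_le_mul_of_nonneg_left hd3 (by linarith)
    nlinarith
  have h4 := mul_le_mul_of_nonneg_right h3 hs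
  have h5 : g * n ^ 2 ≤ g * (25000 * w * (d ^ 3 + c * w) * s) := by
    have e1 : n * (3 / 500 * (n * g)) = 3 / 500 * (g * n ^ 2) := by ring
    rw [e1] at h2
    have e2 : w * (g * (147 * d ^ 3 + 8 / 3 * (c * w))) * s =
        g * (w * (147 * d ^ 3 + 8 / 3 * (c * w)) * s) := by ring
    rw [e2] at h4
    have e3 : g * (w * (147 * d ^ 3 + 8 / 3 * (c * w)) * s) ≤
        g * (w * (150 * (d ^ 3 + c * w)) * s) := by
      apply mul_le_mul_of_nonneg_left _ (by linarith)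
      apply mul_le_mul_of_nonneg_right _ hs
      apply mul_le_mul_of_nonneg_left _ (by linarith)
      have : 0 ≤ c * w := mul_nonneg (by linarith) (by linarith)
      linarith
    have e4 : g * (25000 * w * (d ^ 3 + c * w) * s) =
        500 / 3 * (g * (w * (150 * (d ^ 3 + c * w)) * s)) := by ring
    rw [e4]
    linarith
  exact le_of_mul_le_mul_left h5 (by linarith)

theorem bound (hn : 1000 ≤ n) (hc : 1 ≤ c) (hw : 1 ≤ w) (hd : 1 ≤ d) {Ω : Type} [Fintype Ω]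
    (μ : Ω → ℝ) (hμ : IsProb μ) (s : ℕ)
    (B : Ω → Prog (Test (Option (Fin n)) (Item n n) w ((2 * n) ^ c) d) Test.size s)
    (hB : ApproximatesOn μ (fun ω => (B ω).eval Test.accepts) (Valid n n) (threeSum n n)) :
    (n : ℝ) ^ 2 ≤ 25000 * w * (d ^ 3 + c * w) * s := by
  classical
  have hw' : (1 : ℝ) ≤ w := by exact_mod_cast hw
  have hc' : (1 : ℝ) ≤ c := by exact_mod_cast hc
  have hd' : (1 : ℝ) ≤ d := by exact_mod_cast hd
  have hs0 : (0 : ℝ) ≤ s := Nat.cast_nonneg s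
  have hd3 : (1 : ℝ) ≤ (d : ℝ) ^ 3 := one_le_pow₀ hd'
  by_cases hsn : n ^ 2 ≤ s
  · have h1 : (n : ℝ) ^ 2 ≤ s := by exact_mod_cast hsn
    have h2 : (0 : ℝ) ≤ c * w := by positivity
    have h3 : (1 : ℝ) ≤ w * (d ^ 3 + c * w) := by nlinarith
    have h4 : (s : ℝ) ≤ (w * (d ^ 3 + c * w)) * s := by nlinarith
    have h5 : (0 : ℝ) ≤ (w * (d ^ 3 + c * w)) * s := by positivity
    calc (n : ℝ) ^ 2 ≤ s := h1
      _ ≤ (w * (d ^ 3 + c * w)) * s := h4
      _ ≤ 25000 * ((w * (d ^ 3 + c * w)) * s) := by linarith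
      _ = _ := by ring
  obtain ⟨b, hb, hL, hb2⟩ := params (n := n) (by omega)
  have hq : 1 ≤ (2 * n) ^ c := Nat.one_le_pow _ _ (by omega)
  have hM : 4 * n ^ 2 * (5 * s + 1) + 2 + s ≤ n ^ 5 := by
    have h1 : s < n ^ 2 := by omega
    have h2 : 4 * n ^ 2 * (5 * s + 1) ≤ 4 * n ^ 2 * (5 * n ^ 2) := Nat.mul_le_mul_left _ (by omega)
    have h3 : 4 * n ^ 2 * (5 * n ^ 2) = 20 * n ^ 4 := by ring
    have h4 : n ^ 2 ≤ n ^ 4 := Nat.pow_le_pow_right (by omega) (by norm_num)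
    have h5 : 30 * n ^ 4 ≤ n ^ 5 := by
      calc 30 * n ^ 4 ≤ n * n ^ 4 := Nat.mul_le_mul_right _ (by omega)
        _ = n ^ 5 := by ring
    have h6 : 1 ≤ n ^ 4 := Nat.one_le_pow _ _ (by omega)
    omega
  obtain ⟨M, hMe⟩ : ∃ M, M = n ^ 5 := ⟨_, rfl⟩
  obtain ⟨E, hE⟩ : ∃ E, E = 2 * ((2 * n) ^ c) ^ (w - 1) * M ^ (d ^ 3 + 3 * d ^ 2 + 6 * d + 2) :=
    ⟨_, rfl⟩
  rw [← hMe] at hM
  obtain ⟨-, -, -, hE1⟩ := Fml.base_bound (M := M) (B := E) (q := (2 * n) ^ c) (w := w) (d := d)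
    (by omega) hq hE
  have h := program_lower μ hμ (Test.accepts (ι := Option (Fin n)) (D := Item n n) (w := w)
    (q := (2 * n) ^ c) (d := d)) (fun i t => t.fml.reads i) Test.size s B (Valid n n)
    (threeSum n n) hB w (n ^ 2) M E hE1 (by omega) 0
    (fun I t => t.fml.sum_reads_le I hw)
    (fun i t h0 z e => by
      unfold Test.accepts
      rw [t.fml.eval_update i h0])
    (fun i Y _ y hY t ht => by
      apply Test.subfunctions i y s M E hq _ hE t ht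
      have : 4 * Fintype.card Y * (5 * s + 1) ≤ 4 * n ^ 2 * (5 * s + 1) :=
        Nat.mul_le_mul_right _ (Nat.mul_le_mul_left _ hY)
      omega)
    ((univ : Finset (Fin n)).map Function.Embedding.some) (T := Fin (n / 2) × Fin b) (by
      intro a ha
      rw [mem_map] at ha
      obtain ⟨i, -, rfl⟩ := ha
      exact Pool.Agent.R617.RFS.asks hb (by omega) i)
  rw [card_map, card_univ, Fintype.card_fin] at h
  have hn0 : (0 : ℝ) < n := by exact_mod_cast (by omega : 0 < n)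
  have eM : Real.logb 2 M = 5 * Real.logb 2 n := by
    rw [hMe]
    push_cast
    rw [Real.logb_pow]
    norm_num
  have eE : Real.logb 2 E = 1 + (w - 1) * Real.logb 2 (((2 * n) ^ c : ℕ) : ℝ) +
      (d ^ 3 + 3 * d ^ 2 + 6 * d + 2) * (5 * Real.logb 2 n) := by
    have hM0 : (0 : ℝ) < M := by rw [hMe]; push_cast; positivity
    have hq0 : (0 : ℝ) < (((2 * n) ^ c : ℕ) : ℝ) := by exact_mod_cast hq
    rw [hE, Nat.cast_mul, Nat.cast_mul, Nat.cast_pow _ (w - 1), Nat.cast_pow M]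
    rw [Real.logb_mul (by positivity) (by positivity), Real.logb_mul (by positivity)
      (by positivity), Real.logb_pow, Real.logb_pow, eM]
    rw [Nat.cast_two, Real.logb_self_eq_one (by norm_num), Nat.cast_sub hw]
    push_cast
    ring
  rw [eM, eE] at h
  have hL' : (8 : ℝ) ≤ Nat.log 2 n := by exact_mod_cast hL
  refine arith (l := Real.logb 2 n) (L := Real.logb 2 (((2 * n) ^ c : ℕ) : ℝ))
    (g := Nat.log 2 n) (N := ((Fintype.card (Fin (n / 2) × Fin b) : ℕ) : ℝ))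
    (e := (d : ℝ) ^ 3 + 3 * d ^ 2 + 6 * d + 2)
    (by exact_mod_cast hn) hL' hc' hw' hd' ?_ (card_T (by omega) hb2) ?_ ?_
    (logb_q (by omega) hL) hs0 h
  · have e1 : (d : ℝ) ≤ d ^ 3 := by nlinarith [sq_nonneg ((d : ℝ) - 1)]
    have e2 : (d : ℝ) ^ 2 ≤ d ^ 3 := by nlinarith [sq_nonneg (d : ℝ)]
    linarith
  · exact Real.logb_nonneg (by norm_num) (by exact_mod_cast (by omega : 1 ≤ n))
  · have h1 := logb_n (n := n) (by omega)
    linarith

end Pool.Agent.K4H88.TF
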